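import Pool.Agent.Lib.MP_020e3f_lc.Main

/-!
Negative answer to Q1: minimal derivations in thin 1-GVAS can be doubly exponential.
-/

namespace Pool.Agent.Results.MP_020e3f_lc.DoublyExp

open Pool.Agent.Lib.MP_020e3f_lc

/-- For every real polynomial `P` and every `m` there is a thin 1-GVAS `G` with nonempty
right-hand sides and integers of absolute value at most `2`, of total size `n ≥ m`, such that `2` is
reachable from `1` and every derivation from `1` to `2` has more than `2 ^ (P n + 2 ^ (n / 42))`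
vertices. -/
theorem result (P : Polynomial ℝ) (m : ℕ) :
    ∃ (ν : Type) (G : GVAS ν) (n : ℕ),
      G.Thin ∧ (∀ r ∈ G.rules, r.2 ≠ [] ∧ ∀ z : ℤ, Sum.inr z ∈ r.2 → |z| ≤ 2) ∧
      n = G.grammarSize + Nat.size 1 + Nat.size 2 ∧ m ≤ n ∧
      (∃ t, G.DerivationFromTo 1 2 t) ∧
      ∀ t, G.DerivationFromTo 1 2 t →
        (2 : ℝ) ^ (P.eval (n : ℝ) + (2 : ℝ) ^ ((n : ℝ) / 42)) < (t.numVertices : ℝ) :=
  main_bound P m

end Pool.Agent.Results.MP_020e3f_lc.DoublyExp
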